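import Pool.Agent.MWV.Stmts

/-!
# MWV, row GST (MP_23468a_al): `Gd` and insertions of words of heavy letters
-/

namespace Pool.Agent.MWV.H5

theorem ib_lgt {w u v : List ℕ} (h : Ib w u v) (hw : ∀ a ∈ w, a % 3 = 0) : lgt u = lgt v := by
  have hw0 : lgt w = [] := by
    unfold lgt
    rw [List.filter_eq_nil_iff]
    intro a ha
    simp [hw a ha]
  induction h with
  | nil => rfl
  | cons a _ ih =>
    unfold lgt at ih ⊢
    rw [List.filter_cons, List.filter_cons, ih]
  | ins _ ih =>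
    rw [ih]
    unfold lgt at hw0 ⊢
    rw [List.filter_append, hw0, List.nil_append]

theorem ib_light {w u v : List ℕ} (h : Ib w u v) (hw : ∀ a ∈ w, a % 3 = 0) (c : ℕ)
    (hc : c % 3 ≠ 0) : c ∈ u ↔ c ∈ v := by
  have h1 := ib_lgt h hw
  have h2 : ∀ l : List ℕ, c ∈ l ↔ c ∈ lgt l := by
    intro l
    unfold lgt
    rw [List.mem_filter]
    simp [hc]
  rw [h2 u, h2 v, h1]

theorem ib_mem {w u v : List ℕ} (h : Ib w u v) (c : ℕ) :
    (c ∈ u → c ∈ v) ∧ (c ∈ v → c ∈ u ∨ c ∈ w) := by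
  induction h with
  | nil => simp
  | cons a _ ih =>
    simp only [List.mem_cons]
    tauto
  | ins _ ih =>
    simp only [List.mem_append]
    tauto

theorem ib_count {N : ℕ} {w u v : List ℕ} (h : Ib w u v) (c : ℕ) (hw : w.count c % N = 0) :
    v.count c % N = u.count c % N := by
  induction h with
  | nil => rfl
  | cons a _ ih =>
    rw [List.count_cons, List.count_cons, Nat.add_mod, ih, ← Nat.add_mod]
  | ins _ ih =>
    rw [List.count_append, Nat.add_mod, hw, ih, Nat.zero_add, Nat.mod_mod]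

theorem ib_fwd {w u v : List ℕ} (h : Ib w u v) : ∀ (u1 u2 : List ℕ) (z : ℕ),
    u = u1 ++ z :: u2 → ∃ v1 v2, v = v1 ++ z :: v2 ∧ Ib w u1 v1 ∧ Ib w u2 v2 := by
  induction h with
  | nil =>
    intro u1 u2 z hu
    simp at hu
  | cons a hI ih =>
    rename_i u' v'
    intro u1 u2 z hu
    rcases u1 with _ | ⟨b, u1⟩
    · rw [List.nil_append, List.cons.injEq] at hu
      obtain ⟨h1, h2⟩ := hu
      subst h1
      subst h2
      exact ⟨[], v', rfl, Ib.nil, hI⟩
    · rw [List.cons_append, List.cons.injEq] at hu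
      obtain ⟨h1, h2⟩ := hu
      subst h1
      obtain ⟨v1, v2, e, i1, i2⟩ := ih u1 u2 z h2
      exact ⟨a :: v1, v2, by rw [e, List.cons_append], Ib.cons a i1, i2⟩
  | ins hI ih =>
    rename_i u' v'
    intro u1 u2 z hu
    obtain ⟨v1, v2, e, i1, i2⟩ := ih u1 u2 z hu
    exact ⟨w ++ v1, v2, by rw [e, List.append_assoc], Ib.ins i1, i2⟩

theorem ib_bwd {w u v : List ℕ} (h : Ib w u v) : ∀ (v1 v2 : List ℕ) (z : ℕ), z ∉ w →
    v = v1 ++ z :: v2 → ∃ u1 u2, u = u1 ++ z :: u2 ∧ Ib w u1 v1 ∧ Ib w u2 v2 := by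
  induction h with
  | nil =>
    intro v1 v2 z _ hv
    simp at hv
  | cons a hI ih =>
    rename_i u' v'
    intro v1 v2 z hz hv
    rcases v1 with _ | ⟨b, v1⟩
    · rw [List.nil_append, List.cons.injEq] at hv
      obtain ⟨h1, h2⟩ := hv
      subst h1
      subst h2
      exact ⟨[], u', rfl, Ib.nil, hI⟩
    · rw [List.cons_append, List.cons.injEq] at hv
      obtain ⟨h1, h2⟩ := hv
      subst h1
      obtain ⟨u1, u2, e, i1, i2⟩ := ih v1 v2 z hz h2
      exact ⟨a :: u1, u2, by rw [e, List.cons_append], Ib.cons a i1, i2⟩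
  | ins hI ih =>
    rename_i u' v'
    intro v1 v2 z hz hv
    rcases List.append_eq_append_iff.1 hv with ⟨t, h1, h2⟩ | ⟨t, h1, h2⟩
    · obtain ⟨u1, u2, e, i1, i2⟩ := ih t v2 z hz h2
      exact ⟨u1, u2, e, by rw [h1]; exact Ib.ins i1, i2⟩
    · rcases t with _ | ⟨b, t⟩
      · rw [List.append_nil] at h1
        rw [List.nil_append] at h2
        obtain ⟨u1, u2, e, i1, i2⟩ := ih [] v2 z hz (by rw [List.nil_append, h2])
        refine ⟨u1, u2, e, ?_, i2⟩
        rw [← h1]
        have := Ib.ins i1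
        rwa [List.append_nil] at this
      · rw [List.cons_append, List.cons.injEq] at h2
        exfalso
        apply hz
        rw [h1, h2.1]
        simp

theorem gst : GstStmt := by
  intro N S k p q h w u v hI hw hc
  have hl := ib_lgt hI hw
  have hm := fun c hc => ib_light hI hw c hc
  unfold Gd
  refine or_congr ?_ (or_congr ?_ (or_congr ?_ ?_))
  · rw [hl]
    refine and_congr_right (fun _ => and_congr_right (fun _ => ?_))
    constructor
    · intro hh c hcv hc3
      exact hh c ((hm c hc3).2 hcv) hc3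
    · intro hh c hcv hc3
      exact hh c ((hm c hc3).1 hcv) hc3
  · unfold Rp
    constructor
    · intro hh c hcv hc3
      exact hh c ((hm c hc3).2 hcv) hc3
    · intro hh c hcv hc3
      exact hh c ((hm c hc3).1 hcv) hc3
  · unfold Lq
    constructor
    · intro hh c hcv hc3
      exact hh c ((hm c hc3).2 hcv) hc3
    · intro hh c hcv hc3
      exact hh c ((hm c hc3).1 hcv) hc3
  · constructor
    · rintro ⟨ν1, ρ, ν2, z, z', e, hz, hz', hρ, hcρ, hL, hR⟩
      obtain ⟨μ1, v2, e1, i1, i2⟩ := ib_fwd hI _ _ _ e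
      obtain ⟨ρ', μ2, e2, i3, i4⟩ := ib_fwd i2 _ _ _ rfl
      refine ⟨μ1, ρ', μ2, z, z', by rw [e1, e2], hz, hz', ?_, ?_, ?_, ?_⟩
      · intro c hcm
        rcases (ib_mem i3 c).2 hcm with h1 | h1
        · exact hρ c h1
        · exact hw c h1
      · rw [ib_count i3 h (hc h)]
        exact hcρ
      · intro c hcm hc3
        refine hL c ?_ hc3
        rw [List.mem_append] at hcm ⊢
        exact hcm.imp (ib_light i1 hw c hc3).2 id
      · intro c hcm hc3
        refine hR c ?_ hc3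
        rw [List.mem_cons] at hcm ⊢
        exact hcm.imp id (ib_light i4 hw c hc3).2
    · rintro ⟨ν1, ρ, ν2, z, z', e, hz, hz', hρ, hcρ, hL, hR⟩
      obtain ⟨μ1, v2, e1, i1, i2⟩ := ib_bwd hI _ _ z (fun hzw => hz (hw z hzw)) e
      obtain ⟨ρ', μ2, e2, i3, i4⟩ := ib_bwd i2 _ _ z' (fun hzw => hz' (hw z' hzw)) rfl
      refine ⟨μ1, ρ', μ2, z, z', by rw [e1, e2], hz, hz', ?_, ?_, ?_, ?_⟩
      · intro c hcm
        exact hρ c ((ib_mem i3 c).1 hcm)
      · rw [← ib_count i3 h (hc h)]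
        exact hcρ
      · intro c hcm hc3
        refine hL c ?_ hc3
        rw [List.mem_append] at hcm ⊢
        exact hcm.imp (ib_light i1 hw c hc3).1 id
      · intro c hcm hc3
        refine hR c ?_ hc3
        rw [List.mem_cons] at hcm ⊢
        exact hcm.imp id (ib_light i4 hw c hc3).1

end Pool.Agent.MWV.H5
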